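import Pool.Agent.N784.CZ.G.Stm
import Pool.Agent.W164.RC.Euler2
import Pool.Agent.N784.AD.Rel

/-!
# The L-function of `y² = x³ - x` over a ray class field of a field containing `i` (helper833)

`StSplit`, `StChar`, `StLocal` imply `StGlue`.
-/

set_option autoImplicit false
set_option linter.unusedSectionVars false

open NumberField IsDedekindDomain Complex

namespace Pool.Agent.N833.CZ

open Pool.Agent.Y773 (TPos LI zz norm_zz_lt hasSum_log natCast_pow_cpow Ov bl bl_iff)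
open Pool.Agent.Y772.DK (LI_eq_exp)
open Pool.Agent.Y767 (Mq Mq_cop Mq_cancel Cls cls cls_eq_one)
open Pool.Agent.Y773.IQ (ofM' ofM'_pos ofM'_supp ne_zero_of_cop)
open Pool.Agent.N784.AD (T1 T1_cop pi1 cls_card_le)
open Pool.Agent.N784.HC (Dn Dn_card phT phT_coe ph norm_ph coe_ne)
open Pool.Agent.N784.CZ (IsRCF tyi StSplit StChar StLocal StGlue)
open Pool.Agent.H304R3.HK (tc tc_ne_zero tc_star_mul tc_re tc_im)
open H385 (nrm ZI)
open Pool.Agent.W164.RC (Ip Ip_spec Ip_exists eulerFactor eulerFactor_eq eulerFactor_z YY norm_YY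
  dg dg_pos)
open Pool.Agent.H921R2.TatePole (below deg nm nm_eq nm_summable two_le_nm)
open Pool.Agent.H82R3.EK (below_eq_of_mem factor_sub_bound)

section
variable {M : Type} [Field M] [NumberField M]

/-- the values of the characters have absolute value one -/
lemma norm_Dn {n : (M →+* ℂ) → ℕ} {𝔮 : Ideal (𝓞 M)} (hbot : 𝔮 ≠ ⊥) (htop : 𝔮 ≠ ⊤)
    {F : Mq 𝔮 →* ℂˣ} (hF : F ∈ Dn n htop) (x : Mq 𝔮) : ‖((F x : ℂˣ) : ℂ)‖ = 1 := by
  have hfin := (cls_card_le hbot htop).1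
  have hcan := Mq_cancel htop
  have h0 : 0 < orderOf (cls (pi1 htop) x) := orderOf_pos _
  have h1 : cls (pi1 htop) (x ^ orderOf (cls (pi1 htop) x)) = 1 := by
    rw [map_pow, pow_orderOf_eq_one]
  obtain ⟨a, b, hab⟩ := cls_eq_one h1
  have h2 : ∀ a : T1 htop, ‖((F (pi1 htop a) : ℂˣ) : ℂ)‖ = 1 := by
    intro a
    rw [hF a, phT_coe]
    exact norm_ph n (coe_ne (ne_zero_of_cop htop (T1_cop a)))
  have h3 := congrArg (fun y => ‖((F y : ℂˣ) : ℂ)‖) hab
  simp only [map_mul, map_pow, Units.val_mul, Units.val_pow_eq_pow_val, norm_mul, norm_pow] at h3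
  rw [h2, h2, one_mul] at h3
  exact (pow_eq_one_iff_of_nonneg (norm_nonneg _) h0.ne').1 h3

lemma norm_ofM'_le {n : (M →+* ℂ) → ℕ} {𝔮 : Ideal (𝓞 M)} (hbot : 𝔮 ≠ ⊥) (htop : 𝔮 ≠ ⊤)
    {F : Mq 𝔮 →* ℂˣ} (hF : F ∈ Dn n htop) (𝔞 : Ideal (𝓞 M)) : ‖ofM' htop F 𝔞‖ ≤ 1 := by
  by_cases h : IsCoprime 𝔞 𝔮
  · rw [ofM'_pos htop F h]
    exact (norm_Dn hbot htop hF _).le
  · have h1 : ofM' htop F 𝔞 = 0 := by
      by_contra h2
      exact h ((ofM'_supp htop F 𝔞).1 h2)
    rw [h1, norm_zero]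
    exact zero_le_one

/-- Euler product over the primes of `M` -/
lemma hasProd_M {ψ : Ideal (𝓞 M) →*₀ ℂ} (hψ : ∀ 𝔞, ‖ψ 𝔞‖ ≤ 1) {s : ℂ} (hs : 1 < s.re) :
    HasProd (fun 𝔭 : {𝔭 : Ideal (𝓞 M) // Prime 𝔭} => (1 - zz ψ s 𝔭)⁻¹) (LI ψ s) := by
  have h1 := (hasSum_log hψ hs).cexp
  rw [← LI_eq_exp ψ hψ hs] at h1
  refine h1.congr_fun fun 𝔭 => ?_
  have hz := norm_zz_lt hψ hs 𝔭.2
  have hne : 1 - zz ψ s 𝔭.1 ≠ 0 := by
    intro h0
    have h5 : zz ψ s 𝔭.1 = 1 := (sub_eq_zero.mp h0).symm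
    rw [h5, norm_one] at hz
    exact lt_irrefl _ hz
  simp only [Function.comp_apply]
  rw [Complex.exp_neg, Complex.exp_log hne]

/-- its conjugate -/
lemma hasProd_Mc {ψ : Ideal (𝓞 M) →*₀ ℂ} (hψ : ∀ 𝔞, ‖ψ 𝔞‖ ≤ 1) {s : ℂ} (hs : 1 < s.re) :
    HasProd (fun 𝔭 : {𝔭 : Ideal (𝓞 M) // Prime 𝔭} =>
      (starRingEnd ℂ) (1 - zz ψ s 𝔭)⁻¹) ((starRingEnd ℂ) (LI ψ s)) :=
  (hasProd_M hψ hs).map (starRingEnd ℂ) Complex.continuous_conj

end

/-- the local factor at a prime of degree `g` over `ℤ[i]` -/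
lemma loc_eq {p : ℕ} (hp : p.Prime) {z : ZI} (hz : z ∈ Ip p) (g : ℕ) (s : ℂ) :
    (tc z / (‖tc z‖ : ℂ)) ^ g * ((nrm z ^ g : ℕ) : ℂ) ^ (-(s - 1 / 2)) = YY p s z ^ g := by
  obtain ⟨-, hzp, h3, -⟩ := Ip_spec hp hz
  rw [natCast_pow_cpow, ← mul_pow]
  congr 1
  rw [h3, natCast_pow_cpow]
  unfold YY
  have hp0 : (p : ℂ) ≠ 0 := Nat.cast_ne_zero.2 hp.ne_zero
  have hpr : (0 : ℝ) < p := by exact_mod_cast hp.pos
  have e1 : (p : ℂ) ^ (-(s - 1 / 2)) = (p : ℂ) ^ (-s) * (p : ℂ) ^ ((1 / 2 : ℂ)) := by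
    rw [← Complex.cpow_add _ _ hp0]
    congr 1
    ring
  have e2 : ((‖tc z‖ : ℝ) : ℂ) = ((p : ℂ) ^ ((1 / 2 : ℂ))) ^ dg p := by
    have h1 : ‖tc z‖ = ((p : ℝ) ^ (1 / 2 : ℝ)) ^ dg p := by
      have h2 := tc_star_mul z
      have h4 : ((z.norm : ℤ) : ℝ) = (p : ℝ) ^ dg p := by
        have h5 : z.norm = ((nrm z : ℕ) : ℤ) := (GaussianInt.abs_natCast_norm z).symm
        rw [h5, h3]
        push_cast
        rfl
      rw [h4] at h2
      have h6 : ((((p : ℝ) ^ (1 / 2 : ℝ)) ^ dg p)) ^ 2 = (p : ℝ) ^ dg p := by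
        rw [← pow_mul, mul_comm, pow_mul, ← Real.rpow_natCast ((p : ℝ) ^ (1 / 2 : ℝ)) 2,
          ← Real.rpow_mul hpr.le]
        norm_num
      rw [← h6] at h2
      exact (pow_left_inj₀ (norm_nonneg _) (by positivity) (by norm_num)).1 h2
    rw [h1, Complex.ofReal_pow, Complex.ofReal_cpow hpr.le]
    push_cast
    rfl
  have e3 : ((‖tc z‖ : ℝ) : ℂ) ≠ 0 := by
    rw [Complex.ofReal_ne_zero, norm_ne_zero_iff]
    exact tc_ne_zero hzp.ne_zero
  rw [e1, mul_pow, ← e2]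
  field_simp

lemma natCast_cpow_conj (n : ℕ) (w : ℂ) :
    (starRingEnd ℂ) ((n : ℂ) ^ w) = (n : ℂ) ^ ((starRingEnd ℂ) w) := by
  rw [Complex.cpow_conj _ _ (by
    rw [Complex.natCast_arg]; exact Real.pi_pos.ne), Complex.conj_natCast]

lemma tc_star' (a : ZI) : tc (star a) = (starRingEnd ℂ) (tc a) := by
  apply Complex.ext
  · rw [tc_re, Complex.conj_re, tc_re, Zsqrtd.re_star]
  · rw [tc_im, Complex.conj_im, tc_im, Zsqrtd.im_star]
    push_cast
    rfl

lemma YY_conj (p : ℕ) (s : ℂ) (z : ZI) :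
    (starRingEnd ℂ) (YY p ((starRingEnd ℂ) s) z) = YY p s (star z) := by
  unfold YY
  rw [map_mul, map_pow, natCast_cpow_conj, map_neg, Complex.conj_conj, tc_star']

/-- a prime of `R` above `2` contains `2 + 2i` -/
lemma two_mem {R : Type*} [CommRing R] (ι : GaussianInt →+* R) (P : Ideal R) [P.IsPrime]
    (h : ((2 : ℕ) : R) ∈ P) : ι ⟨2, 2⟩ ∈ P := by
  have e : (⟨2, 2⟩ : GaussianInt) = ⟨1, 1⟩ * ((2 : ℕ) : GaussianInt) := by decide
  rw [e, map_mul, map_natCast]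
  exact P.mul_mem_left _ h

section
variable {M : Type} [Field M] [NumberField M] {ι₀ : GaussianInt →+* 𝓞 M} {𝔮 : Ideal (𝓞 M)}
  {K : Type} [Field K] [NumberField K] {ι : 𝓞 M →+* 𝓞 K}

/-- a prime of `K` above `2` contains `𝔮` -/
lemma le_of_two (h2 : 𝔮 ≤ Ideal.span {ι₀ ⟨2, 2⟩}) (v : HeightOneSpectrum (𝓞 K))
    (hv : (below v : ℕ) = 2) : 𝔮.map ι ≤ v.asIdeal := by
  have h7 := (nm_eq v).2.2
  rw [hv] at h7
  have := v.isPrime
  have h8 : ι (ι₀ ⟨2, 2⟩) ∈ v.asIdeal := two_mem (ι.comp ι₀) v.asIdeal h7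
  rw [Ideal.map_le_iff_le_comap]
  refine h2.trans ?_
  rw [Ideal.span_singleton_le_iff_mem, Ideal.mem_comap]
  exact h8

/-- the prime of `M` below a prime of `K` -/
noncomputable def bM (ι : 𝓞 M →+* 𝓞 K) (v : HeightOneSpectrum (𝓞 K)) :
    {𝔭 : Ideal (𝓞 M) // Prime 𝔭} :=
  ⟨v.asIdeal.comap ι, by
    have := v.isPrime
    refine Ideal.prime_of_isPrime ?_ (Ideal.comap_isPrime ι v.asIdeal)
    intro h
    have h7 := (nm_eq v).2.2
    have h8 : (((below v : ℕ) : ℕ) : 𝓞 M) ∈ v.asIdeal.comap ι := by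
      rw [Ideal.mem_comap, map_natCast]
      exact h7
    rw [h, Ideal.mem_bot] at h8
    exact (below v).2.ne_zero (by exact_mod_cast h8)⟩

lemma bM_iff (v : HeightOneSpectrum (𝓞 K)) (𝔭 : {𝔭 : Ideal (𝓞 M) // Prime 𝔭}) :
    bM ι v = 𝔭 ↔ 𝔭.1.map ι ≤ v.asIdeal := by
  rw [Ideal.map_le_iff_le_comap]
  constructor
  · rintro rfl
    exact le_rfl
  · intro h
    apply Subtype.ext
    have h1 : 𝔭.1.IsPrime := Ideal.isPrime_of_prime 𝔭.2
    have h2 : 𝔭.1.IsMaximal := h1.isMaximal 𝔭.2.ne_zero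
    have h3 := v.isPrime
    exact (h2.eq_of_le (Ideal.comap_isPrime ι v.asIdeal).ne_top h).symm

end

theorem t_glue (h1 : StSplit) (h2 : StChar) (h3 : StLocal) : StGlue := by
  intro M _ _ ι₀ 𝔮 hbot htop hle K _ _ ι art H s hs
  classical
  have hre : 1 < (s - 1 / 2).re := by
    have : (s - 1 / 2).re = s.re - 1 / 2 := by simp
    rw [this]; linarith
  have hre' : 1 < ((starRingEnd ℂ) s - 1 / 2).re := by
    have : ((starRingEnd ℂ) s - 1 / 2).re = s.re - 1 / 2 := by simp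
    rw [this]; linarith
  have hs' : 1 / 2 < s.re := by linarith
  obtain ⟨F₁, hF₁, hF₁v⟩ := h2 M ι₀ 𝔮 hbot htop hle
  have hfin : (Dn (tyi ι₀) htop).Finite := (Dn_card hbot htop hF₁).1
  have hcfin := (cls_card_le hbot htop).1
  -- the product over the characters
  have hP : HasProd (fun 𝔭 : {𝔭 : Ideal (𝓞 M) // Prime 𝔭} => ∏ᶠ F ∈ Dn (tyi ι₀) htop,
      ((1 - zz (ofM' htop F) (s - 1 / 2) 𝔭)⁻¹ *
        (starRingEnd ℂ) (1 - zz (ofM' htop F) ((starRingEnd ℂ) s - 1 / 2) 𝔭)⁻¹))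
      (∏ᶠ F ∈ Dn (tyi ι₀) htop, (LI (ofM' htop F) (s - 1 / 2) *
        (starRingEnd ℂ) (LI (ofM' htop F) ((starRingEnd ℂ) s - 1 / 2)))) := by
    simp_rw [finprod_mem_eq_finite_toFinset_prod _ hfin]
    apply hasProd_prod
    intro F hF
    rw [Set.Finite.mem_toFinset] at hF
    have hF' := norm_ofM'_le hbot htop hF
    exact (hasProd_M hF' hre).mul (hasProd_Mc hF' hre')
  -- the local identity
  have hloc : ∀ 𝔭 : {𝔭 : Ideal (𝓞 M) // Prime 𝔭},
      HasProd (fun v : {v : HeightOneSpectrum (𝓞 K) // bM ι v = 𝔭} =>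
        if 𝔮.map ι ≤ v.1.asIdeal then 1 else eulerFactor s v.1)
      (∏ᶠ F ∈ Dn (tyi ι₀) htop,
      ((1 - zz (ofM' htop F) (s - 1 / 2) 𝔭)⁻¹ *
        (starRingEnd ℂ) (1 - zz (ofM' htop F) ((starRingEnd ℂ) s - 1 / 2) 𝔭)⁻¹)) := by
    intro 𝔭
    have hpr : 𝔭.1.IsPrime := Ideal.isPrime_of_prime 𝔭.2
    have hmax : 𝔭.1.IsMaximal := hpr.isMaximal 𝔭.2.ne_zero
    by_cases hc : IsCoprime 𝔭.1 𝔮
    · -- good primes
      obtain ⟨hN, hcard⟩ := h1 M 𝔮 hbot htop K ι art H 𝔭.1 hpr 𝔭.2.ne_zero hc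
      set f := orderOf (cls (pi1 htop) ⟨𝔭.1, hc⟩) with hf
      have hf0 : 0 < f := orderOf_pos _
      have hcl0 : 0 < Nat.card (Cls (pi1 htop)) := Nat.card_pos
      have hv0 : Nat.card {v : HeightOneSpectrum (𝓞 K) // 𝔭.1.map ι ≤ v.asIdeal} ≠ 0 := by
        intro h0
        rw [h0, zero_mul] at hcard
        omega
      -- the prime number below
      set p : Nat.Primes := bl 𝔭 with hpdef
      have hpm : (((p : ℕ)) : 𝓞 M) ∈ 𝔭.1 := ((bl_iff 𝔭 p).1 rfl).2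
      have hp2 : (p : ℕ) ≠ 2 := by
        intro hp2
        rw [hp2] at hpm
        have h4 := two_mem ι₀ 𝔭.1 hpm
        have h5 : 𝔮 ≤ 𝔭.1 := hle.trans ((Ideal.span_singleton_le_iff_mem _).2 h4)
        rw [Ideal.isCoprime_iff_sup_eq, sup_eq_left.2 h5] at hc
        exact hpr.ne_top hc
      obtain ⟨z, hz, hzp⟩ := Ip_exists p.2 hp2 ι₀ 𝔭.1 hpm
      obtain ⟨g, hg0, hg1, hg2⟩ := hF₁v 𝔭.1 hpr 𝔭.2.ne_zero hc p z hz hzp
      have hvb : ∀ v : HeightOneSpectrum (𝓞 K), 𝔭.1.map ι ≤ v.asIdeal → below v = p := by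
        intro v hv
        apply below_eq_of_mem
        rw [Ideal.map_le_iff_le_comap] at hv
        have h4 := hv hpm
        rw [Ideal.mem_comap, map_natCast] at h4
        exact h4
      -- the value of the local factor at one place above
      have hval : ∀ v : {v : HeightOneSpectrum (𝓞 K) // bM ι v = 𝔭},
          (if 𝔮.map ι ≤ v.1.asIdeal then 1 else eulerFactor s v.1) =
          ((1 - YY p s z ^ (g * f)) * (1 - YY p s (star z) ^ (g * f)))⁻¹ := by
        rintro ⟨v, hv⟩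
        rw [bM_iff] at hv
        have h4 : ¬ 𝔮.map ι ≤ v.asIdeal := by
          intro h5
          have h6 : (𝔭.1 ⊔ 𝔮).map ι ≤ v.asIdeal := by
            rw [Ideal.map_sup]
            exact sup_le hv h5
          rw [Ideal.isCoprime_iff_sup_eq.1 hc, Ideal.map_top] at h6
          exact v.isPrime.ne_top (top_le_iff.1 h6)
        change (if 𝔮.map ι ≤ v.asIdeal then 1 else eulerFactor s v) = _
        rw [if_neg h4]
        refine eulerFactor_z hp2 hz v (hvb v hv) (g * f) ?_ s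
        rw [hN v hv, hg1, ← pow_mul]
      have hcard' : Nat.card {v : HeightOneSpectrum (𝓞 K) // bM ι v = 𝔭} =
          Nat.card (Cls (pi1 htop)) / f := by
        have h4 : Nat.card {v : HeightOneSpectrum (𝓞 K) // bM ι v = 𝔭} =
            Nat.card {v : HeightOneSpectrum (𝓞 K) // 𝔭.1.map ι ≤ v.asIdeal} :=
          Nat.card_congr (Equiv.subtypeEquivRight fun v => bM_iff v 𝔭)
        rw [h4, ← hcard, Nat.mul_div_cancel _ hf0]
      have hfinv : Finite {v : HeightOneSpectrum (𝓞 K) // bM ι v = 𝔭} := by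
        have : Finite {v : HeightOneSpectrum (𝓞 K) // 𝔭.1.map ι ≤ v.asIdeal} :=
          Nat.finite_of_card_ne_zero hv0
        exact Finite.of_equiv _ (Equiv.subtypeEquivRight fun v => bM_iff v 𝔭).symm
      have hft := Fintype.ofFinite {v : HeightOneSpectrum (𝓞 K) // bM ι v = 𝔭}
      have hprod := hasProd_fintype (fun v : {v : HeightOneSpectrum (𝓞 K) // bM ι v = 𝔭} =>
        if 𝔮.map ι ≤ v.1.asIdeal then 1 else eulerFactor s v.1)
      have hval2 : (∏ v : {v : HeightOneSpectrum (𝓞 K) // bM ι v = 𝔭},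
          (if 𝔮.map ι ≤ v.1.asIdeal then 1 else eulerFactor s v.1)) =
          (((1 - YY p s z ^ (g * f)) * (1 - YY p s (star z) ^ (g * f)))⁻¹) ^
            (Nat.card (Cls (pi1 htop)) / f) := by
        rw [Finset.prod_congr rfl (fun v _ => hval v), Finset.prod_const, Finset.card_univ,
          ← Nat.card_eq_fintype_card, hcard']
      rw [hval2] at hprod
      -- the product over the characters
      have hside : ∀ w : ℂ, 3 / 2 < w.re → ∏ᶠ F ∈ Dn (tyi ι₀) htop,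
          (1 - zz (ofM' htop F) (w - 1 / 2) 𝔭) =
          (1 - YY p w z ^ (g * f)) ^ (Nat.card (Cls (pi1 htop)) / f) := by
        intro w hw
        have hnorm : ‖((Ideal.absNorm 𝔭.1 : ℕ) : ℂ) ^ (-(w - 1 / 2))‖ < 1 := by
          have h4 := norm_zz_lt (ψ := ofM' htop F₁) (norm_ofM'_le hbot htop hF₁)
            (s := w - 1 / 2) (by
              have : (w - 1 / 2).re = w.re - 1 / 2 := by simp
              rw [this]; linarith) 𝔭.2
          unfold zz at h4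
          rw [norm_mul, ofM'_pos htop F₁ hc, norm_Dn hbot htop hF₁, one_mul] at h4
          exact h4
        have h4 := h3 M (tyi ι₀) 𝔮 hbot htop F₁ hF₁ ⟨𝔭.1, hc⟩
          (((Ideal.absNorm 𝔭.1 : ℕ) : ℂ) ^ (-(w - 1 / 2))) hnorm
        rw [← hf, hg2, hg1, loc_eq p.2 hz g w, ← pow_mul] at h4
        rw [← h4]
        refine finprod_mem_congr rfl fun F hF => ?_
        unfold zz
        rw [ofM'_pos htop F hc, hg1]
      have hA := hside s hs
      have hB := hside ((starRingEnd ℂ) s) (by rw [Complex.conj_re]; exact hs)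
      have hC := congrArg (starRingEnd ℂ) hB
      rw [map_pow, map_sub, map_one, map_pow, YY_conj] at hC
      rw [finprod_mem_eq_finite_toFinset_prod _ hfin] at hA hC
      rw [finprod_mem_eq_finite_toFinset_prod _ hfin]
      rw [map_prod] at hC
      have hD : ∏ F ∈ hfin.toFinset, ((1 - zz (ofM' htop F) (s - 1 / 2) 𝔭)⁻¹ *
          (starRingEnd ℂ) (1 - zz (ofM' htop F) ((starRingEnd ℂ) s - 1 / 2) 𝔭)⁻¹) =
          (((1 - YY p s z ^ (g * f)) * (1 - YY p s (star z) ^ (g * f)))⁻¹) ^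
            (Nat.card (Cls (pi1 htop)) / f) := by
        rw [Finset.prod_mul_distrib, Finset.prod_inv_distrib, hA]
        simp_rw [map_inv₀]
        rw [Finset.prod_inv_distrib, hC, mul_inv, mul_pow, inv_pow, inv_pow]
      rw [hD]
      exact hprod
    · -- bad primes
      have hle2 : 𝔮 ≤ 𝔭.1 := by
        by_contra h4
        apply hc
        rw [Ideal.isCoprime_iff_sup_eq]
        by_contra h5
        apply h4
        rw [hmax.eq_of_le h5 le_sup_left]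
        exact le_sup_right
      have h4 : ∀ v : {v : HeightOneSpectrum (𝓞 K) // bM ι v = 𝔭},
          (if 𝔮.map ι ≤ v.1.asIdeal then 1 else eulerFactor s v.1) = 1 := by
        rintro ⟨v, hv⟩
        rw [bM_iff] at hv
        rw [if_pos]
        exact (Ideal.map_mono hle2).trans hv
      have h5 : ∏ᶠ F ∈ Dn (tyi ι₀) htop,
          ((1 - zz (ofM' htop F) (s - 1 / 2) 𝔭)⁻¹ *
          (starRingEnd ℂ) (1 - zz (ofM' htop F) ((starRingEnd ℂ) s - 1 / 2) 𝔭)⁻¹) = 1 := by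
        apply finprod_mem_eq_one_of_forall_eq_one
        intro F hF
        have h6 : ofM' htop F 𝔭.1 = 0 := by
          by_contra h7
          exact hc ((ofM'_supp htop F 𝔭.1).1 h7)
        unfold zz
        rw [h6, zero_mul, zero_mul, sub_zero, inv_one, map_one, one_mul]
      rw [h5]
      simp_rw [h4]
      exact hasProd_one
  -- multipliability
  have h4 : Multipliable (fun v : HeightOneSpectrum (𝓞 K) =>
      if 𝔮.map ι ≤ v.asIdeal then 1 else eulerFactor s v) := by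
    have hsum := nm_summable (K := K) (x := s.re - 1 / 2) (by linarith)
    have h5 : Summable (fun v : HeightOneSpectrum (𝓞 K) =>
        ‖(if 𝔮.map ι ≤ v.asIdeal then 1 else eulerFactor s v) - 1‖) := by
      refine Summable.of_norm_bounded_eventually (hsum.mul_left 6) ?_
      have h6 := hsum.tendsto_cofinite_zero.eventually (Iio_mem_nhds (by norm_num : (0 : ℝ) < 1 / 6))
      filter_upwards [h6] with v hv
      rw [norm_norm]
      split_ifs with hiq
      · rw [sub_self, norm_zero]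
        positivity
      · have hv2 : (below v : ℕ) ≠ 2 := fun hb => hiq (le_of_two hle v hb)
        rw [eulerFactor_eq v hv2]
        exact factor_sub_bound v s hs (le_of_lt hv)
    have h7 := multipliable_one_add_of_summable h5
    refine h7.congr (fun v => ?_)
    ring
  rw [← (Equiv.sigmaFiberEquiv (bM ι)).hasProd_iff]
  refine HasProd.sigma_of_hasProd hP (fun 𝔭 => hloc 𝔭) ?_
  exact (Equiv.sigmaFiberEquiv (bM ι)).multipliable_iff.2 h4

end Pool.Agent.N833.CZ
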